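import Pool.Agent.Run7.h257.NP.Stm

/-! Piece ISO of project NP (helper257, MP_53226a_nt). Author: helper510. -/

set_option autoImplicit false

namespace Pool.Agent.Run7.h510.NP

open Pool.Agent.Run7.h257.NP

theorem t_ISO : S_ISO := by
  intro q n hq hg
  obtain ⟨h, b, m, hb, hbh, hm, hmh, hhq, he⟩ := hg
  have hcop : Nat.Coprime n b := by
    have hd1 : Nat.gcd n b ∣ q := by
      have h1 : Nat.gcd n b ∣ q + b * m := by
        rw [← he]
        exact Dvd.dvd.mul_right (Nat.gcd_dvd_left n b) h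
      have h2 : Nat.gcd n b ∣ b * m := Dvd.dvd.mul_right (Nat.gcd_dvd_right n b) m
      exact (Nat.dvd_add_left h2).1 h1
    rcases (Nat.dvd_prime hq).1 hd1 with h1 | h1
    · exact h1
    · exfalso
      have h2 : Nat.gcd n b ≤ b := Nat.le_of_dvd hb (Nat.gcd_dvd_right n b)
      rw [h1] at h2
      nlinarith
  -- integers
  have hcopZ : IsCoprime (n : ℤ) (b : ℤ) := Nat.isCoprime_iff_coprime.2 hcop
  obtain ⟨u, v, huv⟩ := hcopZ
  have hbZ : (0 : ℤ) < b := by exact_mod_cast hb
  set j : ℤ := (-u) % b with hj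
  set k : ℤ := v - n * ((-u) / b) with hk
  have hj0 : 0 ≤ j := Int.emod_nonneg _ hbZ.ne'
  have hjb : j < b := Int.emod_lt_of_pos _ hbZ
  have hjk : (n : ℤ) * j + 1 = b * k := by
    have h1 : (b : ℤ) * ((-u) / b) + (-u) % b = -u := Int.mul_ediv_add_emod (-u) b
    rw [hk]
    have h2 : j = -u - b * ((-u) / b) := by rw [hj]; linarith
    rw [h2]
    linear_combination -huv
  have hheZ : (n : ℤ) * h = q + b * m := by exact_mod_cast he
  have hmZ : (1 : ℤ) ≤ m := by exact_mod_cast hm
  have hmhZ : (m : ℤ) + 1 ≤ h := by exact_mod_cast hmh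
  have hbhZ : (b : ℤ) + 1 ≤ h := by exact_mod_cast hbh
  have hb1Z : (1 : ℤ) ≤ b := by exact_mod_cast hb
  have hhqZ : (h : ℤ) ^ 2 ≤ q := by exact_mod_cast hhq
  have hqZ : (0 : ℤ) < q := by exact_mod_cast hq.pos
  have hn0 : (0 : ℤ) ≤ n := by positivity
  have hh2 : (2 : ℤ) ≤ h := by linarith
  have hbm : (b : ℤ) * m < h ^ 2 := by nlinarith
  have hnh2 : (n : ℤ) * h < 2 * q := by linarith
  have hnq : (n : ℤ) < q := by nlinarith
  have hhn : (h : ℤ) < n := by nlinarith
  have hhq' : (h : ℤ) < q := by linarith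
  -- b divides j q + h
  have hdiv : (b : ℤ) ∣ j * q + h := by
    have h1 : (b : ℤ) ∣ n * (j * q + h) := by
      refine ⟨k * q + m, ?_⟩
      linear_combination (q : ℤ) * hjk + hheZ
    exact (Nat.isCoprime_iff_coprime.2 hcop).symm.dvd_of_dvd_mul_left h1
  obtain ⟨y, hy⟩ := hdiv
  have hny : (n : ℤ) * y = k * q + m := by
    have h1 : (b : ℤ) * (n * y) = b * (k * q + m) := by
      linear_combination -(n : ℤ) * hy + (q : ℤ) * hjk + hheZ
    exact mul_left_cancel₀ hbZ.ne' h1
  have hy2 : 2 ≤ y := by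
    by_contra hc
    push Not at hc
    have h1 : y ≤ 1 := by omega
    have h2 : (b : ℤ) * y ≤ b := by nlinarith
    have h3 : 0 ≤ j * q := by positivity
    linarith
  have hyq : y < q := by
    have h1 : (b : ℤ) * y < b * q := by
      rw [← hy]
      nlinarith
    exact lt_of_mul_lt_mul_left h1 hbZ.le
  have hk1 : 1 ≤ k := by
    by_contra hc
    push Not at hc
    have h1 : k ≤ 0 := by omega
    have h2 : (b : ℤ) * k ≤ 0 := by nlinarith
    have h3 : 0 ≤ (n : ℤ) * j := by positivity
    linarith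
  lift y to ℕ using by linarith
  refine ⟨y, by exact_mod_cast hy2, by exact_mod_cast hyq, ?_, ?_⟩
  · zify [show 1 ≤ y by have : (2 : ℤ) ≤ y := hy2; omega]
    have e1 : (n : ℤ) * y / q = k := by
      rw [hny]
      rw [add_comm, Int.add_mul_ediv_right _ _ hqZ.ne', Int.ediv_eq_zero_of_lt (by linarith) (by linarith)]
      ring
    have e2 : (n : ℤ) * (y - 1) / q = k - 1 := by
      have : (n : ℤ) * (y - 1) = (q + m - n) + (k - 1) * q := by linear_combination hny
      rw [this, Int.add_mul_ediv_right _ _ hqZ.ne',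
        Int.ediv_eq_zero_of_lt (by linarith) (by linarith)]
      ring
    rw [e1, e2]
    ring
  · intro n' h1n' hn'n
    by_contra hc
    zify [show 1 ≤ y by have : (2 : ℤ) ≤ y := hy2; omega] at hc
    set k' : ℤ := (n' : ℤ) * y / q with hk'
    have h1Z : (1 : ℤ) ≤ n' := by exact_mod_cast h1n'
    have hnZ : (n' : ℤ) + 1 ≤ n := by exact_mod_cast hn'n
    have hle : (n' : ℤ) * (y - 1) / q ≤ k' := by
      apply Int.ediv_le_ediv hqZ
      exact mul_le_mul_of_nonneg_left (by linarith) (by linarith)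
    have hlt : (n' : ℤ) * (y - 1) / q < k' := lt_of_le_of_ne hle (fun h => hc h.symm)
    have a1 : (n' : ℤ) * (y - 1) < k' * q := by
      rw [Int.ediv_lt_iff_lt_mul hqZ] at hlt
      exact hlt
    have a2 : k' * q ≤ (n' : ℤ) * y := by
      rw [hk']
      exact Int.ediv_mul_le _ hqZ.ne'
    set e : ℤ := b * k' - n' * j with hedef
    have b1 : (n' : ℤ) * (h - b) < e * q := by
      have h1 : (b : ℤ) * (n' * (y - 1)) < b * (k' * q) := mul_lt_mul_of_pos_left a1 hbZ
      have h2 : e * q - (n' : ℤ) * (h - b) = b * (k' * q) - (b : ℤ) * (n' * (y - 1)) := by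
        rw [hedef]
        linear_combination (n' : ℤ) * (-hy)
      linarith
    have b2 : e * q ≤ (n' : ℤ) * h := by
      have h1 : (b : ℤ) * (k' * q) ≤ b * ((n' : ℤ) * y) := mul_le_mul_of_nonneg_left a2 hbZ.le
      have h2 : (n' : ℤ) * h - e * q = b * ((n' : ℤ) * y) - (b : ℤ) * (k' * q) := by
        rw [hedef]
        linear_combination (n' : ℤ) * hy
      linarith
    have he1 : 1 ≤ e := by
      by_contra hc'
      push Not at hc'
      have h1 : e ≤ 0 := by omega
      have h2 : e * q ≤ 0 := mul_nonpos_of_nonpos_of_nonneg h1 hqZ.le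
      have h3 : 0 < (n' : ℤ) * (h - b) := by
        apply mul_pos (by linarith) (by linarith)
      linarith
    have he2 : e < 2 := by
      by_contra hc'
      push Not at hc'
      have h2 : 2 * (q : ℤ) ≤ e * q := mul_le_mul_of_nonneg_right hc' hqZ.le
      have h3 : (n' : ℤ) * h ≤ n * h := mul_le_mul_of_nonneg_right (by linarith) (by linarith)
      linarith
    have he3 : e = 1 := by omega
    -- b ∣ n - n'
    have hbj : IsCoprime (b : ℤ) j := ⟨k, -n, by linear_combination -hjk⟩
    have hdv : (b : ℤ) ∣ (n - n') * j := by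
      refine ⟨k - k', ?_⟩
      have : b * k' = n' * j + 1 := by
        rw [he3] at hedef
        linarith
      linear_combination hjk + this
    have hdv2 : (b : ℤ) ∣ (n - n') := hbj.dvd_of_dvd_mul_right hdv
    have hle2 : (b : ℤ) ≤ n - n' := Int.le_of_dvd (by linarith) hdv2
    rw [he3] at b2
    have h4 : (n' : ℤ) * h ≤ (n - b) * h := by
      apply mul_le_mul_of_nonneg_right (by linarith) (by linarith)
    have h5 : ((n : ℤ) - b) * h = q + b * m - b * h := by linear_combination hheZ
    have h6 : (b : ℤ) * m < b * h := mul_lt_mul_of_pos_left (by linarith) hbZ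
    linarith

end Pool.Agent.Run7.h510.NP

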